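import Pool.Agent.Lib.MP_27bb56_h90.Geo

/-!
Every line is a side of at most `n - 2` triangles of maximum area.
-/

namespace Pool.Agent.MP27bb56

section coords

variable {A B G p q g r s h u v w N di dj dk ti tj tk xi xj xk : ℝ}

lemma I1 (hN : N = A ^ 2 + B ^ 2) (hN0 : N ≠ 0) (hdi : di = A * q - B * p)
    (hdj : dj = A * s - B * r) (hti : N * di * ti = p * A + q * B)
    (htj : N * dj * tj = r * A + s * B) :
    p * s - q * r = di * dj * (ti - tj) := by
  apply mul_left_cancel₀ hN0
  have e1 : N * (di * dj * (ti - tj)) = (N * di * ti) * dj - (N * dj * tj) * di := by ring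
  rw [e1, hti, htj, hdi, hdj, hN]
  ring

lemma I2 (hdi : di = A * q - B * p) (hdj : dj = A * s - B * r)
    (hxi : di * xi = - g + di * ti * G) (hxj : dj * xj = - h + dj * tj * G)
    (e : p * s - q * r = di * dj * (ti - tj)) :
    A * (q * h - s * g) - B * (p * h - r * g) + G * (p * s - r * q)
      = di * dj * (xi - xj) := by
  have e1 : di * dj * (xi - xj) = (di * xi) * dj - (dj * xj) * di := by ring
  rw [e1, hxi, hxj]
  have e2 : p * s - r * q = di * dj * (ti - tj) := by rw [← e]; ring
  rw [e2]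
  rw [hdi, hdj]
  ring

lemma I3 (hxi : di * xi = - g + di * ti * G) (hxj : dj * xj = - h + dj * tj * G)
    (hxk : dk * xk = - w + dk * tk * G)
    (e12 : p * s - q * r = di * dj * (ti - tj))
    (e13 : p * v - q * u = di * dk * (ti - tk))
    (e23 : r * v - s * u = dj * dk * (tj - tk)) :
    p * (s * w - v * h) - q * (r * w - u * h) + g * (r * v - u * s)
      = - (di * dj * dk) * (xi * (tj - tk) + xj * (tk - ti) + xk * (ti - tj)) := by
  have e1 : - (di * dj * dk) * (xi * (tj - tk) + xj * (tk - ti) + xk * (ti - tj))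
      = - ((di * xi) * (dj * dk * (tj - tk)) - (dj * xj) * (di * dk * (ti - tk))
        + (dk * xk) * (di * dj * (ti - tj))) := by ring
  rw [e1, hxi, hxj, hxk]
  have e2 : p * (s * w - v * h) - q * (r * w - u * h) + g * (r * v - u * s)
      = g * (r * v - s * u) - h * (p * v - q * u) + w * (p * s - q * r) := by ring
  rw [e2, e12, e13, e23]
  ring

end coords

lemma abs_aux {m t : ℝ} (ht : 0 ≤ t) : |m ^ 2 * (-t)| = m ^ 2 * t := by
  rw [abs_mul, abs_neg, abs_of_nonneg ht, abs_of_nonneg (sq_nonneg m)]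

open Classical in
/-- every line is a side of at most `n - 2` triangles of maximum area -/
theorem link_le (L : Finset (Set (ℝ × ℝ))) (hL : ∀ l ∈ L, IsLine l) (A : ℝ)
    (hA : IsMaxArea L A) (c : Set (ℝ × ℝ)) (hc : c ∈ L) :
    ((maxTriples L A).filter (fun t => c ∈ t)).card ≤ L.card - 2 := by
  have hL' : ∀ l ∈ L, ∃ a b g : ℝ, (a ≠ 0 ∨ b ≠ 0) ∧ l = ln a b g := hL
  choose! a b g hl using hL'
  have hn : ∀ l ∈ L, a l ≠ 0 ∨ b l ≠ 0 := fun l h => (hl l h).1
  have he : ∀ l ∈ L, l = ln (a l) (b l) (g l) := fun l h => (hl l h).2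
  -- coordinates relative to c
  obtain ⟨N, hN⟩ : ∃ N, N = a c ^ 2 + b c ^ 2 := ⟨_, rfl⟩
  have hN0 : 0 < N := by
    rw [hN]
    rcases hn c hc with u | u
    · have := sq_nonneg (b c)
      have := pow_pos (abs_pos.mpr u) 2
      rw [sq_abs] at this
      linarith
    · have := sq_nonneg (a c)
      have := pow_pos (abs_pos.mpr u) 2
      rw [sq_abs] at this
      linarith
  obtain ⟨d, hd⟩ : ∃ d : Set (ℝ × ℝ) → ℝ, ∀ l, d l = a c * b l - b c * a l := ⟨_, fun _ => rfl⟩
  obtain ⟨t, ht⟩ : ∃ t : Set (ℝ × ℝ) → ℝ, ∀ l, d l ≠ 0 →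
      N * d l * t l = a l * a c + b l * b c := by
    refine ⟨fun l => (a l * a c + b l * b c) / (N * d l), ?_⟩
    intro l h
    have : N * d l ≠ 0 := mul_ne_zero hN0.ne' h
    field_simp
  obtain ⟨x, hx⟩ : ∃ x : Set (ℝ × ℝ) → ℝ, ∀ l, d l ≠ 0 →
      d l * x l = - g l + d l * t l * g c := by
    refine ⟨fun l => (- g l + d l * t l * g c) / d l, ?_⟩
    intro l h
    field_simp
  have hDc : ∀ l, D (a c) (b c) (a l) (b l) = d l := fun l => (hd l).symm
  have hdc : d c = 0 := by rw [hd]; ring
  have J1 : ∀ i j, d i ≠ 0 → d j ≠ 0 →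
      D (a i) (b i) (a j) (b j) = d i * d j * (t i - t j) := fun i j hi hj =>
    I1 hN hN0.ne' (hd i) (hd j) (ht i hi) (ht j hj)
  have J2 : ∀ i j, d i ≠ 0 → d j ≠ 0 →
      Del (a c) (b c) (g c) (a i) (b i) (g i) (a j) (b j) (g j)
        = d i * d j * (x i - x j) := by
    intro i j hi hj
    exact I2 (hd i) (hd j) (hx i hi) (hx j hj) (J1 i j hi hj)
  have J3 : ∀ i j k, d i ≠ 0 → d j ≠ 0 → d k ≠ 0 →
      Del (a i) (b i) (g i) (a j) (b j) (g j) (a k) (b k) (g k)
        = - (d i * d j * d k) * (x i * (t j - t k) + x j * (t k - t i)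
          + x k * (t i - t j)) := by
    intro i j k hi hj hk
    exact I3 (hx i hi) (hx j hj) (hx k hk) (J1 i j hi hj) (J1 i k hi hk) (J1 j k hj hk)
  -- the maximum area is positive
  have hA0 : 0 < A := by
    obtain ⟨⟨l₁, h1, l₂, h2, l₃, h3, hT⟩, -⟩ := hA
    rw [he l₁ h1, he l₂ h2, he l₃ h3] at hT
    obtain ⟨e1, e2, e3, e4, e5⟩ := area_of (hn l₂ h2) (hn l₃ h3) hT
    have p1 : 0 < 2 * |D (a l₁) (b l₁) (a l₂) (b l₂) * D (a l₁) (b l₁) (a l₃) (b l₃)
        * D (a l₂) (b l₂) (a l₃) (b l₃)| := by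
      have := abs_pos.mpr (mul_ne_zero (mul_ne_zero e1 e2) e3)
      linarith
    have p2 : 0 < A * (2 * |D (a l₁) (b l₁) (a l₂) (b l₂) * D (a l₁) (b l₁) (a l₃) (b l₃)
        * D (a l₂) (b l₂) (a l₃) (b l₃)|) := by
      rw [e5]; positivity
    exact (pos_iff_pos_of_mul_pos p2).mpr p1
  obtain ⟨q, hq⟩ : ∃ q : Set (ℝ × ℝ) → ℝ, ∀ l, q l = 2 * A * t l := ⟨_, fun _ => rfl⟩
  have hqt : ∀ i j, q i < q j ↔ t i < t j := by
    intro i j
    rw [hq, hq]
    constructor
    · intro h
      exact lt_of_mul_lt_mul_left h (by linarith)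
    · intro h
      exact mul_lt_mul_of_pos_left h (by linarith)
  let V := L.filter (fun l => d l ≠ 0)
  have hV : ∀ l ∈ V, l ∈ L ∧ d l ≠ 0 := fun l h => Finset.mem_filter.mp h
  have hinj : ∀ i ∈ V, ∀ j ∈ V, x i = x j → q i = q j → i = j := by
    intro i hi j hj e1 e2
    obtain ⟨hi, di⟩ := hV i hi
    obtain ⟨hj, dj⟩ := hV j hj
    have e3 : t i = t j := by
      rw [hq, hq] at e2
      exact mul_left_cancel₀ (by linarith : (2 * A) ≠ 0) e2
    have k1 := J1 i j di dj
    rw [e3, sub_self, mul_zero] at k1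
    unfold D at k1
    have ka : a i * d j = a j * d i := by
      rw [hd, hd]; linear_combination (a c) * k1
    have kb : b i * d j = b j * d i := by
      rw [hd, hd]; linear_combination (b c) * k1
    have kx1 := hx i di
    have kx2 := hx j dj
    have kg : g i * d j = g j * d i := by
      rw [e1, e3] at kx1
      linear_combination (d j) * kx1 - (d i) * kx2
    rw [he i hi, he j hj]
    ext z
    rw [mem_ln, mem_ln]
    constructor
    · intro hz
      apply mul_left_cancel₀ di
      linear_combination (d j) * hz - z.1 * ka - z.2 * kb + kg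
    · intro hz
      apply mul_left_cancel₀ dj
      linear_combination (d i) * hz + z.1 * ka + z.2 * kb - kg
  have hP : PairOK x q V := by
    intro i hi j hj hij
    obtain ⟨hi, di⟩ := hV i hi
    obtain ⟨hj, dj⟩ := hV j hj
    have tij := (hqt i j).mp hij
    by_cases hx0 : x i = x j
    · rw [hx0, sub_self]
      have : (0 : ℝ) ^ 2 = 0 := by norm_num
      rw [this]; linarith
    have n1 : D (a c) (b c) (a i) (b i) ≠ 0 := by rw [hDc]; exact di
    have n2 : D (a c) (b c) (a j) (b j) ≠ 0 := by rw [hDc]; exact dj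
    have n3 : D (a i) (b i) (a j) (b j) ≠ 0 := by
      rw [J1 i j di dj]
      exact mul_ne_zero (mul_ne_zero di dj) (by intro h; linarith)
    have n4 : Del (a c) (b c) (g c) (a i) (b i) (g i) (a j) (b j) (g j) ≠ 0 := by
      rw [J2 i j di dj]
      exact mul_ne_zero (mul_ne_zero di dj) (sub_ne_zero.mpr hx0)
    obtain ⟨B, hB, hB2⟩ := exists_area n1 n2 n3 n4
    rw [← he c hc, ← he i hi, ← he j hj] at hB
    have hBA := hA.2 c hc i hi j hj B hB
    rw [hDc, hDc, J1 i j di dj, J2 i j di dj] at hB2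
    have e1 : d i * d j * (d i * d j * (t i - t j)) = (d i * d j) ^ 2 * (- (t j - t i)) := by
      ring
    rw [e1, abs_aux (by linarith)] at hB2
    have m0 : 0 < (d i * d j) ^ 2 := by
      have := mul_ne_zero di dj
      positivity
    have e2 : (x i - x j) ^ 2 = 2 * B * (t j - t i) := by
      apply mul_left_cancel₀ m0.ne'
      linear_combination -hB2
    rw [e2, hq, hq]
    have := mul_le_mul_of_nonneg_right hBA (by linarith : 0 ≤ t j - t i)
    linarith
  have hT : TripleOK x q V := by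
    intro i hi j hj k hk hij hjk
    obtain ⟨hi, di⟩ := hV i hi
    obtain ⟨hj, dj⟩ := hV j hj
    obtain ⟨hk, dk⟩ := hV k hk
    have tij := (hqt i j).mp hij
    have tjk := (hqt j k).mp hjk
    obtain ⟨S, hS⟩ : ∃ S, S = x i * (t j - t k) + x j * (t k - t i) + x k * (t i - t j) :=
      ⟨_, rfl⟩
    have eL : x i * (q j - q k) + x j * (q k - q i) + x k * (q i - q j) = 2 * A * S := by
      rw [hS, hq, hq, hq]; ring
    have eR : (q j - q i) * (q k - q j) * (q k - q i)
        = (2 * A) ^ 3 * ((t j - t i) * (t k - t j) * (t k - t i)) := by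
      rw [hq, hq, hq]; ring
    rw [eL, eR]
    have pPi : 0 < (t j - t i) * (t k - t j) * (t k - t i) :=
      mul_pos (mul_pos (by linarith) (by linarith)) (by linarith)
    by_cases hS0 : S = 0
    · rw [hS0, mul_zero]
      have : (0 : ℝ) ^ 2 = 0 := by norm_num
      rw [this]
      positivity
    have n1 : D (a i) (b i) (a j) (b j) ≠ 0 := by
      rw [J1 i j di dj]
      exact mul_ne_zero (mul_ne_zero di dj) (by intro h; linarith)
    have n2 : D (a i) (b i) (a k) (b k) ≠ 0 := by
      rw [J1 i k di dk]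
      exact mul_ne_zero (mul_ne_zero di dk) (by intro h; linarith)
    have n3 : D (a j) (b j) (a k) (b k) ≠ 0 := by
      rw [J1 j k dj dk]
      exact mul_ne_zero (mul_ne_zero dj dk) (by intro h; linarith)
    have n4 : Del (a i) (b i) (g i) (a j) (b j) (g j) (a k) (b k) (g k) ≠ 0 := by
      rw [J3 i j k di dj dk, ← hS]
      exact mul_ne_zero (neg_ne_zero.mpr (mul_ne_zero (mul_ne_zero di dj) dk)) hS0
    obtain ⟨B, hB, hB2⟩ := exists_area n1 n2 n3 n4
    rw [← he i hi, ← he j hj, ← he k hk] at hB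
    have hBA := hA.2 i hi j hj k hk B hB
    rw [J1 i j di dj, J1 i k di dk, J1 j k dj dk, J3 i j k di dj dk, ← hS] at hB2
    have e1 : d i * d j * (t i - t j) * (d i * d k * (t i - t k)) *
        (d j * d k * (t j - t k)) = (d i * d j * d k) ^ 2 *
        (- ((t j - t i) * (t k - t j) * (t k - t i))) := by
      ring
    rw [e1, abs_aux pPi.le] at hB2
    have m0 : 0 < (d i * d j * d k) ^ 2 := by
      have := mul_ne_zero (mul_ne_zero di dj) dk
      positivity
    have e2 : S ^ 2 = 2 * B * ((t j - t i) * (t k - t j) * (t k - t i)) := by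
      apply mul_left_cancel₀ m0.ne'
      linear_combination -hB2
    have e3 : S ^ 2 ≤ 2 * A * ((t j - t i) * (t k - t j) * (t k - t i)) := by
      rw [e2]
      have := mul_le_mul_of_nonneg_right hBA pPi.le
      linarith
    have e4 : (2 * A * S) ^ 2 = (2 * A) ^ 2 * S ^ 2 := by ring
    have e5 : (2 * A) ^ 3 * ((t j - t i) * (t k - t j) * (t k - t i))
        = (2 * A) ^ 2 * (2 * A * ((t j - t i) * (t k - t j) * (t k - t i))) := by ring
    rw [e4, e5]
    exact mul_le_mul_of_nonneg_left e3 (by positivity)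
  -- maximum triangles on c come from tight pairs
  have tight_of : ∀ i ∈ L, ∀ j ∈ L, TriangleArea c i j A →
      (i, j) ∈ edges x q V ∨ (j, i) ∈ edges x q V := by
    intro i hi j hj h
    rw [he c hc, he i hi, he j hj] at h
    obtain ⟨e1, e2, e3, e4, e5⟩ := area_of (hn i hi) (hn j hj) h
    rw [hDc] at e1 e2
    have iV : i ∈ V := Finset.mem_filter.mpr ⟨hi, e1⟩
    have jV : j ∈ V := Finset.mem_filter.mpr ⟨hj, e2⟩
    rw [hDc, hDc, J1 i j e1 e2, J2 i j e1 e2] at e5
    rw [J1 i j e1 e2] at e3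
    have m0 : 0 < (d i * d j) ^ 2 := by
      have := mul_ne_zero e1 e2
      positivity
    have tne : t i ≠ t j := by
      intro h0
      rw [h0, sub_self, mul_zero] at e3
      exact e3 rfl
    rcases lt_or_gt_of_ne tne with u | u
    · left
      have w : d i * d j * (d i * d j * (t i - t j)) = (d i * d j) ^ 2 * (- (t j - t i)) := by
        ring
      rw [w, abs_aux (by linarith)] at e5
      refine mem_edges.mpr ⟨iV, jV, (hqt i j).mpr u, ?_⟩
      show (x i - x j) ^ 2 = q j - q i
      rw [hq, hq]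
      apply mul_left_cancel₀ m0.ne'
      linear_combination -e5
    · right
      have w : d i * d j * (d i * d j * (t i - t j))
          = (- (d i * d j)) ^ 2 * (- (- (t i - t j))) := by
        ring
      have w2 : |(- (d i * d j)) ^ 2 * (- (- (t i - t j)))| = (d i * d j) ^ 2 * (t i - t j) := by
        rw [neg_neg, abs_mul, abs_of_pos (by linarith : 0 < t i - t j), neg_sq,
          abs_of_nonneg (sq_nonneg _)]
      rw [w, w2] at e5
      refine mem_edges.mpr ⟨jV, iV, (hqt j i).mpr u, ?_⟩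
      show (x j - x i) ^ 2 = q i - q j
      rw [hq, hq]
      apply mul_left_cancel₀ m0.ne'
      linear_combination -e5
  have hsub : (maxTriples L A).filter (fun t => c ∈ t) ⊆
      (edges x q V).image (fun e => {c, e.1, e.2}) := by
    intro s hs
    rw [Finset.mem_filter] at hs
    obtain ⟨hs1, hs2⟩ := hs
    unfold maxTriples at hs1
    rw [Finset.mem_filter, Finset.mem_powersetCard] at hs1
    obtain ⟨⟨hsL, -⟩, l₁, l₂, l₃, hs3, hs4⟩ := hs1
    have main : ∃ i j, s = {c, i, j} ∧ TriangleArea c i j A := by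
      rw [hs3, Finset.mem_insert, Finset.mem_insert, Finset.mem_singleton] at hs2
      rcases hs2 with u | u | u
      · exact ⟨l₂, l₃, by rw [hs3, u], by rw [u]; exact hs4⟩
      · refine ⟨l₁, l₃, ?_, by rw [u]; exact hs4.swap⟩
        rw [hs3, u, Finset.insert_comm]
      · refine ⟨l₁, l₂, ?_, by rw [u]; exact hs4.rot.rot⟩
        rw [hs3, u]
        ext z
        simp only [Finset.mem_insert, Finset.mem_singleton]
        tauto
    obtain ⟨i, j, hs5, hs6⟩ := main
    have hi : i ∈ L := hsL (by rw [hs5]; simp)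
    have hj : j ∈ L := hsL (by rw [hs5]; simp)
    rw [Finset.mem_image]
    rcases tight_of i hi j hj hs6 with u | u
    · exact ⟨(i, j), u, hs5.symm⟩
    · refine ⟨(j, i), u, ?_⟩
      rw [hs5]
      ext z
      simp only [Finset.mem_insert, Finset.mem_singleton]
      tauto
  have k1 := (Finset.card_le_card hsub).trans Finset.card_image_le
  rcases Finset.eq_empty_or_nonempty V with hV0 | hV0
  · have : edges x q V = ∅ := by
      rw [hV0]
      ext e
      rw [mem_edges]
      simp
    rw [this, Finset.card_empty] at k1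
    omega
  have k2 := forest x q V.card V rfl hV0 hinj hP hT
  have k3 : V.card ≤ L.card - 1 := by
    have : V ⊆ L.erase c := by
      intro l hl'
      obtain ⟨h1, h2⟩ := hV l hl'
      refine Finset.mem_erase.mpr ⟨?_, h1⟩
      rintro rfl
      exact h2 hdc
    have := Finset.card_le_card this
    rwa [Finset.card_erase_of_mem hc] at this
  omega

open Classical in
/-- `3 m(L) ≤ n (n - 2)` -/
theorem three_mul_le (L : Finset (Set (ℝ × ℝ))) (hL : ∀ l ∈ L, IsLine l) (A : ℝ)
    (hA : IsMaxArea L A) : 3 * (maxTriples L A).card ≤ L.card * (L.card - 2) := by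
  have h1 : ∑ c ∈ L, ((maxTriples L A).filter (fun t => c ∈ t)).card
      ≤ ∑ _c ∈ L, (L.card - 2) :=
    Finset.sum_le_sum fun c hc => link_le L hL A hA c hc
  rw [Finset.sum_const, smul_eq_mul] at h1
  have h2 : ∑ c ∈ L, ((maxTriples L A).filter (fun t => c ∈ t)).card
      = ∑ t ∈ maxTriples L A, (L.filter (fun c => c ∈ t)).card :=
    Finset.sum_card_bipartiteAbove_eq_sum_card_bipartiteBelow (fun c t => c ∈ t)
  have h3 : ∀ t ∈ maxTriples L A, (L.filter (fun c => c ∈ t)).card = 3 := by
    intro t ht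
    unfold maxTriples at ht
    rw [Finset.mem_filter, Finset.mem_powersetCard] at ht
    have : L.filter (fun c => c ∈ t) = t := by
      ext c
      rw [Finset.mem_filter]
      exact ⟨fun h => h.2, fun h => ⟨ht.1.1 h, h⟩⟩
    rw [this]
    exact ht.1.2
  rw [h2, Finset.sum_congr rfl h3, Finset.sum_const, smul_eq_mul] at h1
  omega

end Pool.Agent.MP27bb56
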