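import Mathlib

/-!
Definitions for the problem MP_27bb56_co: lines of the plane, the area of the triangle determined
by three lines, triples of maximum area, and the function `M`.
-/

namespace Pool.Agent.MP27bb56

/-- `l` is a straight line of the plane. -/
def IsLine (l : Set (ℝ × ℝ)) : Prop :=
  ∃ a b c : ℝ, (a ≠ 0 ∨ b ≠ 0) ∧ l = {p | a * p.1 + b * p.2 = c}

/-- The lines `l₁`, `l₂`, `l₃` determine a triangle (any two of them meet in exactly one point
and the three have no common point) and `A` is its area. -/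
def TriangleArea (l₁ l₂ l₃ : Set (ℝ × ℝ)) (A : ℝ) : Prop :=
  ∃ P Q R : ℝ × ℝ, l₂ ∩ l₃ = {P} ∧ l₁ ∩ l₃ = {Q} ∧ l₁ ∩ l₂ = {R} ∧ l₁ ∩ l₂ ∩ l₃ = ∅ ∧
    A = |(Q.1 - P.1) * (R.2 - P.2) - (R.1 - P.1) * (Q.2 - P.2)| / 2

/-- `A` is the largest area of a triangle determined by three lines of `L`. -/
def IsMaxArea (L : Finset (Set (ℝ × ℝ))) (A : ℝ) : Prop :=
  (∃ l₁ ∈ L, ∃ l₂ ∈ L, ∃ l₃ ∈ L, TriangleArea l₁ l₂ l₃ A) ∧
    ∀ l₁ ∈ L, ∀ l₂ ∈ L, ∀ l₃ ∈ L, ∀ B, TriangleArea l₁ l₂ l₃ B → B ≤ A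

open Classical in
/-- The unordered triples of lines of `L` whose triangle has area `A`. -/
noncomputable def maxTriples (L : Finset (Set (ℝ × ℝ))) (A : ℝ) :
    Finset (Finset (Set (ℝ × ℝ))) :=
  (L.powersetCard 3).filter (fun t => ∃ l₁ l₂ l₃, t = {l₁, l₂, l₃} ∧ TriangleArea l₁ l₂ l₃ A)

/-- `M n` is the largest number of triangles of maximum area in an arrangement of `n` lines
(that determines at least one triangle). -/
noncomputable def M (n : ℕ) : ℕ :=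
  sSup {m | ∃ L : Finset (Set (ℝ × ℝ)), ∃ A : ℝ, L.card = n ∧ (∀ l ∈ L, IsLine l) ∧
    IsMaxArea L A ∧ (maxTriples L A).card = m}

end Pool.Agent.MP27bb56
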