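import Mathlib

/-!
The link of a line in a maximum area arrangement is a forest: abstract form.
-/

namespace Pool.Agent.MP27bb56

variable {ι : Type*}

/-- pair inequality -/
def PairOK (x q : ι → ℝ) (V : Finset ι) : Prop :=
  ∀ i ∈ V, ∀ j ∈ V, q i < q j → (x i - x j) ^ 2 ≤ q j - q i

/-- triple inequality -/
def TripleOK (x q : ι → ℝ) (V : Finset ι) : Prop :=
  ∀ i ∈ V, ∀ j ∈ V, ∀ k ∈ V, q i < q j → q j < q k →
    (x i * (q j - q k) + x j * (q k - q i) + x k * (q i - q j)) ^ 2
      ≤ (q j - q i) * (q k - q j) * (q k - q i)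

/-- tight pair (first one lower) -/
def Tight (x q : ι → ℝ) (i j : ι) : Prop :=
  q i < q j ∧ (x i - x j) ^ 2 = q j - q i

lemma PairOK.neg {x q : ι → ℝ} {V : Finset ι} (h : PairOK x q V) :
    PairOK (fun i => - x i) q V := by
  intro i hi j hj hij
  have := h i hi j hj hij
  have e : (- x i - - x j) ^ 2 = (x i - x j) ^ 2 := by ring
  show (- x i - - x j) ^ 2 ≤ q j - q i
  rw [e]
  exact this

lemma TripleOK.neg {x q : ι → ℝ} {V : Finset ι} (h : TripleOK x q V) :
    TripleOK (fun i => - x i) q V := by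
  intro i hi j hj k hk hij hjk
  have := h i hi j hj k hk hij hjk
  have e : (-x i * (q j - q k) + -x j * (q k - q i) + -x k * (q i - q j)) ^ 2
    = (x i * (q j - q k) + x j * (q k - q i) + x k * (q i - q j)) ^ 2 := by ring
  show (-x i * (q j - q k) + -x j * (q k - q i) + -x k * (q i - q j)) ^ 2 ≤ _
  rw [e]
  exact this

lemma Tight.neg {x q : ι → ℝ} {i j : ι} (h : Tight x q i j) :
    Tight (fun i => - x i) q i j := by
  refine ⟨h.1, ?_⟩
  have e : (- x i - - x j) ^ 2 = (x i - x j) ^ 2 := by ring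
  show (- x i - - x j) ^ 2 = q j - q i
  rw [e]
  exact h.2

section
variable {x q : ι → ℝ} {V : Finset ι}

lemma Tight.ne {i j : ι} (h : Tight x q i j) : x i ≠ x j := by
  intro e
  have h1 := h.1
  have h2 := h.2
  rw [e] at h2
  simp at h2
  linarith

/-- lens property -/
lemma lens (hP : PairOK x q V) {a b p : ι} (ha : a ∈ V) (hb : b ∈ V) (hp : p ∈ V)
    (h : Tight x q a b) (h1 : q a < q p) (h2 : q p < q b) :
    0 ≤ (x p - x a) * (x b - x p) := by
  have e1 := hP a ha p hp h1
  have e2 := hP p hp b hb h2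
  have e3 := h.2
  nlinarith

/-- a vertex above the upper end is on the side of the upper end -/
lemma up (hT : TripleOK x q V) {a b p : ι} (ha : a ∈ V) (hb : b ∈ V) (hp : p ∈ V)
    (h : Tight x q a b) (h1 : q b < q p) :
    0 < (2 * x p - x a - x b) * (x b - x a) := by
  have e := hT a ha b hb p hp h.1 h1
  have h2 := h.2
  have h3 := h.1
  obtain ⟨s, hs⟩ : ∃ s, s = x b - x a := ⟨_, rfl⟩
  obtain ⟨Q, hQ⟩ : ∃ Q, Q = q p - q b := ⟨_, rfl⟩
  obtain ⟨y, hy⟩ : ∃ y, y = x b - x p := ⟨_, rfl⟩
  have hQ0 : 0 < Q := by linarith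
  have hs2 : s ^ 2 = q b - q a := by rw [hs, ← h2]; ring
  have hs0 : 0 < s ^ 2 := by linarith
  have xb : x b = x a + s := by linarith
  have xp : x p = x a + s - y := by linarith
  have qb : q b = q a + s ^ 2 := by linarith
  have qp : q p = q a + s ^ 2 + Q := by linarith
  rw [xb, xp, qb, qp] at e
  have e' : s ^ 2 * (Q + s * y) ^ 2 ≤ s ^ 2 * (Q * (Q + s ^ 2)) := by
    have l : (x a * (q a + s ^ 2 - (q a + s ^ 2 + Q)) + (x a + s) * (q a + s ^ 2 + Q - q a)
      + (x a + s - y) * (q a - (q a + s ^ 2))) ^ 2 = s ^ 2 * (Q + s * y) ^ 2 := by ring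
    have r : (q a + s ^ 2 - q a) * (q a + s ^ 2 + Q - (q a + s ^ 2))
      * (q a + s ^ 2 + Q - q a) = s ^ 2 * (Q * (Q + s ^ 2)) := by ring
    rw [l, r] at e
    exact e
  have e2 : (Q + s * y) ^ 2 ≤ Q * (Q + s ^ 2) := le_of_mul_le_mul_left e' hs0
  rw [xb, xp]
  have goal' : 0 < s ^ 2 - 2 * (s * y) := by
    by_contra hcon
    push Not at hcon
    have h4 : s ^ 2 / 2 ≤ s * y := by linarith
    have h5 : (Q + s ^ 2 / 2) ^ 2 ≤ (Q + s * y) ^ 2 := by
      apply pow_le_pow_left₀ (by positivity)
      linarith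
    nlinarith [pow_pos hs0 2]
  nlinarith

/-- a vertex below the lower end is on the side of the lower end -/
lemma down (hT : TripleOK x q V) {a b p : ι} (ha : a ∈ V) (hb : b ∈ V) (hp : p ∈ V)
    (h : Tight x q a b) (h1 : q p < q a) :
    0 < (x a + x b - 2 * x p) * (x b - x a) := by
  have e := hT p hp a ha b hb h1 h.1
  have h2 := h.2
  have h3 := h.1
  obtain ⟨s, hs⟩ : ∃ s, s = x b - x a := ⟨_, rfl⟩
  obtain ⟨Q, hQ⟩ : ∃ Q, Q = q a - q p := ⟨_, rfl⟩
  obtain ⟨y, hy⟩ : ∃ y, y = x p - x a := ⟨_, rfl⟩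
  have hQ0 : 0 < Q := by linarith
  have hs2 : s ^ 2 = q b - q a := by rw [hs, ← h2]; ring
  have hs0 : 0 < s ^ 2 := by linarith
  have xb : x b = x a + s := by linarith
  have xp : x p = x a + y := by linarith
  have qb : q b = q a + s ^ 2 := by linarith
  have qp : q p = q a - Q := by linarith
  rw [xb, xp, qb, qp] at e
  have e' : s ^ 2 * (Q + s * y) ^ 2 ≤ s ^ 2 * (Q * (Q + s ^ 2)) := by
    have l : ((x a + y) * (q a - (q a + s ^ 2)) + x a * (q a + s ^ 2 - (q a - Q))
      + (x a + s) * (q a - Q - q a)) ^ 2 = s ^ 2 * (Q + s * y) ^ 2 := by ring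
    have r : (q a - (q a - Q)) * (q a + s ^ 2 - q a)
      * (q a + s ^ 2 - (q a - Q)) = s ^ 2 * (Q * (Q + s ^ 2)) := by ring
    rw [l, r] at e
    exact e
  have e2 : (Q + s * y) ^ 2 ≤ Q * (Q + s ^ 2) := le_of_mul_le_mul_left e' hs0
  rw [xb, xp]
  have goal' : 0 < s ^ 2 - 2 * (s * y) := by
    by_contra hcon
    push Not at hcon
    have h4 : s ^ 2 / 2 ≤ s * y := by linarith
    have h5 : (Q + s ^ 2 / 2) ^ 2 ≤ (Q + s * y) ^ 2 := by
      apply pow_le_pow_left₀ (by positivity)
      linarith
    nlinarith [pow_pos hs0 2]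
  nlinarith

/-- no vertex is both an upper and a lower end -/
lemma noPath (hP : PairOK x q V) (hT : TripleOK x q V) {i k j : ι}
    (hi : i ∈ V) (hk : k ∈ V) (hj : j ∈ V) (h1 : Tight x q i k) (h2 : Tight x q k j) :
    False := by
  have m1 := up hT hi hk hj h1 h2.1
  have m2 := down hT hk hj hi h2 h1.1
  have p := hP i hi j hj (h1.1.trans h2.1)
  have a1 := h1.2
  have a2 := h2.2
  have b1 := h1.1
  have b2 := h2.1
  obtain ⟨s, hs⟩ : ∃ s, s = x k - x i := ⟨_, rfl⟩
  obtain ⟨r, hr⟩ : ∃ r, r = x j - x k := ⟨_, rfl⟩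
  have xk : x k = x i + s := by linarith
  have xj : x j = x i + s + r := by linarith
  have hs0 : 0 < s ^ 2 := by rw [hs]; nlinarith
  have hr0 : 0 < r ^ 2 := by rw [hr]; nlinarith
  rw [xk, xj] at m1 m2
  have c1 : 0 < s ^ 2 + 2 * (r * s) := by nlinarith
  have c2 : 0 < r ^ 2 + 2 * (r * s) := by nlinarith
  have c3 : r * s ≤ 0 := by
    have : (x i - x j) ^ 2 ≤ s ^ 2 + r ^ 2 := by
      rw [hs, hr]; nlinarith
    rw [xj] at this
    nlinarith
  have c4 : (r * s) ^ 2 = r ^ 2 * s ^ 2 := by ring
  nlinarith [mul_pos hs0 hr0, mul_nonneg (neg_nonneg.mpr c3) hs0.le,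
    mul_nonneg (neg_nonneg.mpr c3) c1.le, mul_nonneg hr0.le c1.le]

/-- same level, both upper ends: not on the same side -/
lemma tieTop (hP : PairOK x q V) {a b p r : ι} (ha : a ∈ V) (hb : b ∈ V) (hp : p ∈ V)
    (hr : r ∈ V) (h : Tight x q a b) (h' : Tight x q p r) (e : q r = q b) (hlt : x a < x b)
    (hne : x r ≠ x b) : x r < x b ∧ x r < x p := by
  have p1 := hP a ha r hr (by rw [e]; exact h.1)
  have p2 := hP p hp b hb (by rw [← e]; exact h'.1)
  have e1 := h.2
  have e2 := h'.2
  have k1 : (x a - x r) ^ 2 ≤ (x a - x b) ^ 2 := by rw [e1, ← e]; exact p1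
  have k2 : (x p - x b) ^ 2 ≤ (x p - x r) ^ 2 := by rw [e2, e]; exact p2
  have c1 : x r < x b := by
    rcases lt_or_gt_of_ne hne with h0 | h0
    · exact h0
    · nlinarith
  refine ⟨c1, ?_⟩
  nlinarith

/-- same level, both lower ends: not on the same side -/
lemma tieBot (hP : PairOK x q V) {a b p r : ι} (ha : a ∈ V) (hb : b ∈ V) (hp : p ∈ V)
    (hr : r ∈ V) (h : Tight x q a b) (h' : Tight x q p r) (e : q p = q a) (hlt : x a < x b)
    (hne : x p ≠ x a) : x a < x p ∧ x r < x p := by
  have p1 := hP a ha r hr (by rw [← e]; exact h'.1)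
  have p2 := hP p hp b hb (by rw [e]; exact h.1)
  have e1 := h.2
  have e2 := h'.2
  have k1 : (x a - x r) ^ 2 ≤ (x p - x r) ^ 2 := by rw [e2, e]; exact p1
  have k2 : (x p - x b) ^ 2 ≤ (x a - x b) ^ 2 := by rw [e1, ← e]; exact p2
  have c1 : x a < x p := by
    rcases lt_or_gt_of_ne hne with h0 | h0
    · nlinarith
    · exact h0
  refine ⟨c1, ?_⟩
  nlinarith

/-- crossing, first edge to the right -/
lemma crossAux (hP : PairOK x q V) (hT : TripleOK x q V) {a b p r : ι} (ha : a ∈ V)
    (hb : b ∈ V) (hp : p ∈ V) (hr : r ∈ V) (h : Tight x q a b) (h' : Tight x q p r)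
    (h1 : q a < q p) (h2 : q p < q b) (h3 : q b < q r) (hlt : x a < x b) : False := by
  have m1 := up hT ha hb hr h h3
  have m2 := down hT hp hr ha h' h1
  have l1 := lens hP ha hb hp h h1 h2
  have l2 := lens hP hp hr hb h' h2 h3
  have p1 := hP a ha r hr (h.1.trans h3)
  have p2 := hP p hp b hb h2
  have e1 := h.2
  have e2 := h'.2
  have c1 : x a + x b < 2 * x r := by
    have : 0 < x b - x a := by linarith
    by_contra hc
    push Not at hc
    nlinarith
  rcases lt_or_gt_of_ne h'.ne with g | g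
  · -- right
    have a1 : x a ≤ x p := by
      by_contra hc
      push Not at hc
      nlinarith
    have a2 : x p ≤ x b := by
      by_contra hc
      push Not at hc
      nlinarith
    have a3 : x b ≤ x r := by
      by_contra hc
      push Not at hc
      have : x b < x p ∨ x b = x p ∨ x p < x b := lt_trichotomy _ _
      rcases this with t | t | t
      · nlinarith
      · linarith
      · nlinarith
    have s1 : (x p - x a) * (x r - x b) ≤ 0 := by nlinarith
    have s2 : 0 ≤ (x p - x a) * (x r - x b) :=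
      mul_nonneg (by linarith) (by linarith)
    have s3 : (x p - x a) * (x r - x b) = 0 := le_antisymm s1 s2
    rcases mul_eq_zero.mp s3 with t | t
    · have : x p = x a := by linarith
      rw [this] at p2
      linarith
    · have : x b = x r := by linarith
      rw [this] at p2
      linarith
  · -- left
    have c2 : 2 * x a > x p + x r := by
      have : x r - x p < 0 := by linarith
      by_contra hc
      push Not at hc
      nlinarith
    linarith

lemma cross (hP : PairOK x q V) (hT : TripleOK x q V) {a b p r : ι} (ha : a ∈ V)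
    (hb : b ∈ V) (hp : p ∈ V) (hr : r ∈ V) (h : Tight x q a b) (h' : Tight x q p r)
    (h1 : q a < q p) (h2 : q p < q b) (h3 : q b < q r) : False := by
  rcases lt_or_gt_of_ne h.ne with g | g
  · exact crossAux hP hT ha hb hp hr h h' h1 h2 h3 g
  · exact crossAux hP.neg hT.neg ha hb hp hr h.neg h'.neg h1 h2 h3 (by linarith)

lemma facts (hinj : ∀ i ∈ V, ∀ j ∈ V, x i = x j → q i = q j → i = j)
    (hP : PairOK x q V) {a b a1 b1 : ι} (ha : a ∈ V) (hb : b ∈ V)
    (ha1 : a1 ∈ V) (hb1 : b1 ∈ V) (h : Tight x q a b)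
    (h1 : Tight x q a b1) (nb : b1 ≠ b) (h2 : Tight x q a1 b) (na : a1 ≠ a)
    (m1 : q b1 ≤ q b) (m2 : q a ≤ q a1) (hlt : x a < x b) :
    q a < q a1 ∧ q b1 < q b ∧ x a < x b1 ∧ x b1 < x b ∧ x a < x a1 ∧ x a1 < x b ∧
      q b1 ≤ q a1 := by
  have e := h.2
  have e1 := h1.2
  have e2 := h2.2
  have k1 := h.1
  have k2 := h1.1
  have k3 := h2.1
  have A1 : q a < q a1 := by
    rcases lt_or_eq_of_le m2 with g | g
    · exact g
    exfalso
    have hx : x a1 ≠ x a := fun t => na (hinj _ ha1 _ ha t g.symm)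
    obtain ⟨t1, t2⟩ := tieBot hP ha hb ha1 hb h h2 g.symm hlt hx
    have t3 : x a1 = 2 * x b - x a := by
      have w : (x a1 - x b) ^ 2 = (x a - x b) ^ 2 := by rw [e, e2, g]
      have : (x a1 - x a) * (x a1 + x a - 2 * x b) = 0 := by linear_combination w
      rcases mul_eq_zero.mp this with u | u
      · exact absurd (by linarith) hx
      · linarith
    rcases lt_or_eq_of_le m1 with g' | g'
    · have l1 := lens hP ha hb hb1 h k2 g'
      have l2 := lens hP ha1 hb hb1 h2 (by rw [← g]; exact k2) g'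
      rw [t3] at l2
      have u1 : x b1 = x b := by
        by_contra hne
        rcases lt_or_gt_of_ne hne with v | v
        · nlinarith
        · nlinarith
      rw [u1] at e1
      linarith
    · have hx' : x b1 ≠ x b := fun t => nb (hinj _ hb1 _ hb t g')
      obtain ⟨s1, s2⟩ := tieTop hP ha hb ha hb1 h h1 g' hlt hx'
      have s3 : x b1 = 2 * x a - x b := by
        have w : (x a - x b1) ^ 2 = (x a - x b) ^ 2 := by rw [e, e1, g']
        have : (x b1 - x b) * (x b1 + x b - 2 * x a) = 0 := by linear_combination w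
        rcases mul_eq_zero.mp this with u | u
        · exact absurd (by linarith) hx'
        · linarith
      have p3 := hP a1 ha1 b1 hb1 (by linarith)
      rw [t3, s3] at p3
      nlinarith
  have A2 : q b1 < q b := by
    rcases lt_or_eq_of_le m1 with g | g
    · exact g
    exfalso
    have hx' : x b1 ≠ x b := fun t => nb (hinj _ hb1 _ hb t g)
    obtain ⟨s1, s2⟩ := tieTop hP ha hb ha hb1 h h1 g hlt hx'
    have l1 := lens hP ha hb ha1 h A1 k3
    have l2 := lens hP ha hb1 ha1 h1 A1 (by rw [g]; exact k3)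
    have u1 : x a1 = x a := by
      by_contra hne
      rcases lt_or_gt_of_ne hne with v | v
      · nlinarith
      · nlinarith
    rw [u1] at e2
    linarith
  have l1 := lens hP ha hb hb1 h k2 A2
  have l2 := lens hP ha hb ha1 h A1 k3
  have B1 : x a < x b1 := by
    rcases lt_or_gt_of_ne h1.ne with g | g
    · exact g
    · exfalso; nlinarith
  have B2 : x b1 < x b := by
    rcases lt_trichotomy (x b1) (x b) with g | g | g
    · exact g
    · exfalso; rw [g] at e1; linarith
    · exfalso; nlinarith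
  have B4 : x a1 < x b := by
    rcases lt_or_gt_of_ne h2.ne with g | g
    · exact g
    · exfalso; nlinarith
  have B3 : x a < x a1 := by
    rcases lt_trichotomy (x a) (x a1) with g | g | g
    · exact g
    · exfalso; rw [← g] at e2; linarith
    · exfalso; nlinarith
  refine ⟨A1, A2, B1, B2, B3, B4, ?_⟩
  by_contra hc
  push Not at hc
  have p3 := hP a1 ha1 b1 hb1 hc
  have : 0 < (x a1 - x a) * (x b - x b1) := mul_pos (by linarith) (by linarith)
  nlinarith

lemma sepAux (hinj : ∀ i ∈ V, ∀ j ∈ V, x i = x j → q i = q j → i = j)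
    (hP : PairOK x q V) (hT : TripleOK x q V) {a b a1 b1 : ι} (ha : a ∈ V) (hb : b ∈ V)
    (ha1 : a1 ∈ V) (hb1 : b1 ∈ V) (h : Tight x q a b)
    (hmax : ∀ p ∈ V, ∀ r ∈ V, Tight x q p r → q r - q p ≤ q b - q a)
    (h1 : Tight x q a b1) (nb : b1 ≠ b) (h2 : Tight x q a1 b) (na : a1 ≠ a)
    (hmin : ∀ p ∈ V, Tight x q p b → p ≠ a → q a1 ≤ q p) (hlt : x a < x b)
    {p r : ι} (hp : p ∈ V) (hr : r ∈ V) (h' : Tight x q p r) (hp1 : q p ≤ q a1)
    (hpn : p ≠ a1) (hr1 : q a1 < q r) : p = a ∧ r = b := by
  have M1 := hmax a ha b1 hb1 h1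
  have M2 := hmax a1 ha1 b hb h2
  have M3 := hmax p hp r hr h'
  obtain ⟨A1, A2, B1, B2, B3, B4, C⟩ :=
    facts hinj hP ha hb ha1 hb1 h h1 nb h2 na (by linarith) (by linarith) hlt
  have e := h.2
  have e1 := h1.2
  have e2 := h2.2
  have e' := h'.2
  have k1 := h.1
  have k2 := h1.1
  have k3 := h2.1
  have k' := h'.1
  -- a point on the level of a, different from a, is to the left of b
  have lowTie : q p = q a → 2 * x p < x a1 + x b := by
    intro g
    have := down hT ha1 hb hp h2 (by linarith)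
    by_contra hc
    push Not at hc
    nlinarith
  rcases lt_trichotomy (q r) (q b) with g | g | g
  · -- r strictly below b
    exfalso
    have upb := up hT hp hr hb h' g
    rcases lt_trichotomy (q p) (q a) with f | f | f
    · exact cross hP hT hp hr ha hb h' h f (by linarith) g
    · by_cases hpa : p = a
      · subst hpa
        have nrb : r ≠ b := fun t => by rw [t] at g; exact lt_irrefl _ g
        have := (facts hinj hP ha hb ha1 hr h h' nrb h2 na (by linarith) (by linarith)
          hlt).2.2.2.2.2.2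
        linarith
      · have hx : x p ≠ x a := fun t => hpa (hinj _ hp _ ha t f)
        obtain ⟨t1, t2⟩ := tieBot hP ha hb hp hr h h' f hlt hx
        have t3 := lowTie f
        have : 0 < (2 * x b - x p - x r) * (x r - x p) := upb
        have t4 : 2 * x b - x p - x r < 0 := by
          by_contra hc
          push Not at hc
          nlinarith
        linarith
    · rcases lt_or_eq_of_le hp1 with d | d
      · exact cross hP hT hp hr ha1 hb h' h2 d hr1 g
      · have hx : x p ≠ x a1 := fun t => hpn (hinj _ hp _ ha1 t d)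
        obtain ⟨t1, t2⟩ := tieBot hP ha1 hb hp hr h2 h' d B4 hx
        have l := lens hP ha hb hp h f (by linarith)
        have t4 : 2 * x b - x p - x r < 0 := by
          by_contra hc
          push Not at hc
          nlinarith
        have : x p ≤ x b := by
          by_contra hc
          push Not at hc
          nlinarith
        linarith
  · -- same level as b
    by_cases hrb : r = b
    · subst hrb
      refine ⟨?_, rfl⟩
      by_contra hpa
      have m := hmin p hp h' hpa
      have d : q p = q a1 := le_antisymm hp1 m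
      have l := lens hP ha hb hp h (by linarith) k'
      have hx : x p ≠ x a1 := fun t => hpn (hinj _ hp _ ha1 t d)
      have w : (x p - x r) ^ 2 = (x a1 - x r) ^ 2 := by rw [e', e2, d]
      have : (x p - x a1) * (x p + x a1 - 2 * x r) = 0 := by linear_combination w
      rcases mul_eq_zero.mp this with u | u
      · exact hx (by linarith)
      · have : x r < x p := by linarith
        nlinarith
    · exfalso
      have hx : x r ≠ x b := fun t => hrb (hinj _ hr _ hb t g)
      obtain ⟨t1, t2⟩ := tieTop hP ha hb hp hr h h' g hlt hx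
      have u1 := up hT ha hb1 hr h1 (by linarith)
      have u2 : x a + x b1 < 2 * x r := by
        by_contra hc
        push Not at hc
        nlinarith
      rcases lt_trichotomy (q p) (q a) with f | f | f
      · linarith
      · have t3 := lowTie f
        have t4 : (x p - x r) ^ 2 = (x b - x a) ^ 2 := by
          have : (x b - x a) ^ 2 = (x a - x b) ^ 2 := by ring
          rw [this, e', e, f, g]
        have t5 : x p - x r = x b - x a := by
          have v : (x p - x r - (x b - x a)) * (x p - x r + (x b - x a)) = 0 := by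
            linear_combination t4
          rcases mul_eq_zero.mp v with w | w
          · linarith
          · linarith
        linarith
      · have d1 := down hT hp hr ha h' f
        have : x p + x r - 2 * x a < 0 := by
          by_contra hc
          push Not at hc
          nlinarith
        linarith
  · exfalso
    exact cross hP hT ha hb hp hr h h' (by linarith) (by linarith) g

lemma sep (hinj : ∀ i ∈ V, ∀ j ∈ V, x i = x j → q i = q j → i = j)
    (hP : PairOK x q V) (hT : TripleOK x q V) {a b a1 b1 : ι} (ha : a ∈ V) (hb : b ∈ V)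
    (ha1 : a1 ∈ V) (hb1 : b1 ∈ V) (h : Tight x q a b)
    (hmax : ∀ p ∈ V, ∀ r ∈ V, Tight x q p r → q r - q p ≤ q b - q a)
    (h1 : Tight x q a b1) (nb : b1 ≠ b) (h2 : Tight x q a1 b) (na : a1 ≠ a)
    (hmin : ∀ p ∈ V, Tight x q p b → p ≠ a → q a1 ≤ q p)
    {p r : ι} (hp : p ∈ V) (hr : r ∈ V) (h' : Tight x q p r) (hp1 : q p ≤ q a1)
    (hpn : p ≠ a1) (hr1 : q a1 < q r) : p = a ∧ r = b := by
  have tneg : ∀ {i j : ι}, Tight (fun i => - x i) q i j → Tight x q i j := by
    intro i j hij
    have := hij.neg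
    simpa using this
  rcases lt_or_gt_of_ne h.ne with g | g
  · exact sepAux hinj hP hT ha hb ha1 hb1 h hmax h1 nb h2 na hmin g hp hr h' hp1 hpn hr1
  · exact sepAux (x := fun i => - x i)
      (fun i hi j hj e1 e2 => hinj i hi j hj (neg_injective e1) e2) hP.neg hT.neg
      ha hb ha1 hb1 h.neg (fun p hp r hr t => hmax p hp r hr (tneg t)) h1.neg nb h2.neg na
      (fun p hp t => hmin p hp (tneg t)) (by linarith) hp hr h'.neg hp1 hpn hr1

end

open Classical in
/-- the tight pairs -/
noncomputable def edges (x q : ι → ℝ) (V : Finset ι) : Finset (ι × ι) :=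
  (V ×ˢ V).filter (fun e => Tight x q e.1 e.2)

lemma mem_edges {x q : ι → ℝ} {V : Finset ι} {e : ι × ι} :
    e ∈ edges x q V ↔ e.1 ∈ V ∧ e.2 ∈ V ∧ Tight x q e.1 e.2 := by
  simp [edges, and_assoc]

open Classical in
theorem forest (x q : ι → ℝ) : ∀ (n : ℕ) (V : Finset ι), V.card = n → V.Nonempty →
    (∀ i ∈ V, ∀ j ∈ V, x i = x j → q i = q j → i = j) → PairOK x q V → TripleOK x q V →
    (edges x q V).card + 1 ≤ V.card := by
  intro n
  induction n using Nat.strong_induction_on with
  | _ n ih =>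
  intro V hn hV hinj hP hT
  have mono : ∀ U ⊆ V, U.Nonempty → U.card < n → (edges x q U).card + 1 ≤ U.card := by
    intro U hU hne hlt
    exact ih U.card hlt U rfl hne (fun i hi j hj => hinj i (hU hi) j (hU hj))
      (fun i hi j hj => hP i (hU hi) j (hU hj))
      (fun i hi j hj k hk => hT i (hU hi) j (hU hj) k (hU hk))
  rcases Finset.eq_empty_or_nonempty (edges x q V) with he | he
  · rw [he, Finset.card_empty]
    have := hV.card_pos
    omega
  obtain ⟨⟨a, b⟩, hab, hmax'⟩ := Finset.exists_max_image (edges x q V)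
    (fun e => q e.2 - q e.1) he
  obtain ⟨ha, hb, h⟩ := mem_edges.mp hab
  simp only at ha hb h
  have hmax : ∀ p ∈ V, ∀ r ∈ V, Tight x q p r → q r - q p ≤ q b - q a := by
    intro p hp r hr t
    exact hmax' (p, r) (mem_edges.mpr ⟨hp, hr, t⟩)
  have hne : a ≠ b := by
    rintro rfl
    exact lt_irrefl _ h.1
  by_cases c1 : ∀ b1 ∈ V, Tight x q a b1 → b1 = b
  · have hs : edges x q V ⊆ insert (a, b) (edges x q (V.erase a)) := by
      rintro ⟨p, r⟩ he'
      obtain ⟨hp, hr, t⟩ := mem_edges.mp he'
      simp only at hp hr t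
      rw [Finset.mem_insert]
      by_cases hpa : p = a
      · left
        subst hpa
        rw [c1 r hr t]
      · right
        have hra : r ≠ a := by
          rintro rfl
          exact noPath hP hT hp hr hb t h
        exact mem_edges.mpr ⟨Finset.mem_erase.mpr ⟨hpa, hp⟩,
          Finset.mem_erase.mpr ⟨hra, hr⟩, t⟩
    have k1 := Finset.card_le_card hs
    have k2 := Finset.card_insert_le (a, b) (edges x q (V.erase a))
    have k3 : (V.erase a).card = V.card - 1 := Finset.card_erase_of_mem ha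
    have k4 := hV.card_pos
    have k5 := mono (V.erase a) (Finset.erase_subset _ _)
      ⟨b, Finset.mem_erase.mpr ⟨hne.symm, hb⟩⟩ (by omega)
    omega
  by_cases c2 : ∀ a1 ∈ V, Tight x q a1 b → a1 = a
  · have hs : edges x q V ⊆ insert (a, b) (edges x q (V.erase b)) := by
      rintro ⟨p, r⟩ he'
      obtain ⟨hp, hr, t⟩ := mem_edges.mp he'
      simp only at hp hr t
      rw [Finset.mem_insert]
      by_cases hrb : r = b
      · left
        subst hrb
        rw [c2 p hp t]
      · right
        have hpb : p ≠ b := by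
          rintro rfl
          exact noPath hP hT ha hp hr h t
        exact mem_edges.mpr ⟨Finset.mem_erase.mpr ⟨hpb, hp⟩,
          Finset.mem_erase.mpr ⟨hrb, hr⟩, t⟩
    have k1 := Finset.card_le_card hs
    have k2 := Finset.card_insert_le (a, b) (edges x q (V.erase b))
    have k3 : (V.erase b).card = V.card - 1 := Finset.card_erase_of_mem hb
    have k4 := hV.card_pos
    have k5 := mono (V.erase b) (Finset.erase_subset _ _)
      ⟨a, Finset.mem_erase.mpr ⟨hne, ha⟩⟩ (by omega)
    omega
  push Not at c1 c2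
  obtain ⟨b1, hb1, t1, nb⟩ := c1
  obtain ⟨a2, ha2, t2, na2⟩ := c2
  obtain ⟨a1, ha1', hmin'⟩ := Finset.exists_min_image
    (V.filter (fun p => Tight x q p b ∧ p ≠ a)) q
    ⟨a2, Finset.mem_filter.mpr ⟨ha2, t2, na2⟩⟩
  obtain ⟨ha1, t3, na⟩ := Finset.mem_filter.mp ha1'
  have hmin : ∀ p ∈ V, Tight x q p b → p ≠ a → q a1 ≤ q p := by
    intro p hp t hpa
    exact hmin' p (Finset.mem_filter.mpr ⟨hp, t, hpa⟩)
  let U := V.filter (fun v => q v ≤ q a1 ∧ v ≠ a1)
  let W := V.filter (fun v => ¬ (q v ≤ q a1 ∧ v ≠ a1))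
  have hUW : U.card + W.card = V.card := Finset.card_filter_add_card_filter_not _
  have haU : a ∈ U := by
    have := hmax a1 ha1 b hb t3
    exact Finset.mem_filter.mpr ⟨ha, by linarith, na.symm⟩
  have haW : a1 ∈ W := Finset.mem_filter.mpr ⟨ha1, by simp⟩
  have hU0 : 0 < U.card := Finset.card_pos.mpr ⟨a, haU⟩
  have hW0 : 0 < W.card := Finset.card_pos.mpr ⟨a1, haW⟩
  have kU := mono U (Finset.filter_subset _ _) ⟨a, haU⟩ (by omega)
  have kW := mono W (Finset.filter_subset _ _) ⟨a1, haW⟩ (by omega)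
  have hs : edges x q V ⊆ insert (a, b) (edges x q U ∪ edges x q W) := by
    rintro ⟨p, r⟩ he'
    obtain ⟨hp, hr, t⟩ := mem_edges.mp he'
    simp only at hp hr t
    rw [Finset.mem_insert, Finset.mem_union]
    by_cases hpU : q p ≤ q a1 ∧ p ≠ a1
    · by_cases hrU : q r ≤ q a1 ∧ r ≠ a1
      · right; left
        exact mem_edges.mpr ⟨Finset.mem_filter.mpr ⟨hp, hpU⟩,
          Finset.mem_filter.mpr ⟨hr, hrU⟩, t⟩
      · left
        have hra : r ≠ a1 := by
          rintro rfl
          exact noPath hP hT hp hr hb t t3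
        have hr1 : q a1 < q r := by
          by_contra hc
          push Not at hc
          exact hrU ⟨hc, hra⟩
        obtain ⟨e1, e2⟩ := sep hinj hP hT ha hb ha1 hb1 h hmax t1 nb t3 na hmin hp hr t
          hpU.1 hpU.2 hr1
        rw [e1, e2]
    · right; right
      have hrU : ¬ (q r ≤ q a1 ∧ r ≠ a1) := by
        rintro ⟨e1, e2⟩
        apply hpU
        have := t.1
        refine ⟨by linarith, ?_⟩
        rintro rfl
        linarith
      exact mem_edges.mpr ⟨Finset.mem_filter.mpr ⟨hp, hpU⟩,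
        Finset.mem_filter.mpr ⟨hr, hrU⟩, t⟩
  have k1 := Finset.card_le_card hs
  have k2 := Finset.card_insert_le (a, b) (edges x q U ∪ edges x q W)
  have k3 := Finset.card_union_le (edges x q U) (edges x q W)
  omega

end Pool.Agent.MP27bb56
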