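import Pool.Agent.Lib.MP_27bb56_h90.Forest
import Pool.Agent.Lib.MP_27bb56_h90.Defs

/-!
Area of the triangle determined by three lines; the link of a line.
-/

namespace Pool.Agent.MP27bb56

lemma TriangleArea.swap {l₁ l₂ l₃ : Set (ℝ × ℝ)} {A : ℝ} (h : TriangleArea l₁ l₂ l₃ A) :
    TriangleArea l₂ l₁ l₃ A := by
  obtain ⟨P, Q, R, h1, h2, h3, h4, h5⟩ := h
  refine ⟨Q, P, R, h2, h1, by rw [Set.inter_comm]; exact h3, by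
    rw [Set.inter_comm l₂ l₁]; exact h4, ?_⟩
  rw [h5]
  congr 1
  have : (P.1 - Q.1) * (R.2 - Q.2) - (R.1 - Q.1) * (P.2 - Q.2)
    = - ((Q.1 - P.1) * (R.2 - P.2) - (R.1 - P.1) * (Q.2 - P.2)) := by ring
  rw [this, abs_neg]

lemma TriangleArea.rot {l₁ l₂ l₃ : Set (ℝ × ℝ)} {A : ℝ} (h : TriangleArea l₁ l₂ l₃ A) :
    TriangleArea l₂ l₃ l₁ A := by
  obtain ⟨P, Q, R, h1, h2, h3, h4, h5⟩ := h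
  refine ⟨Q, R, P, by rw [Set.inter_comm]; exact h2, by rw [Set.inter_comm]; exact h3, h1, by
    rw [Set.inter_comm, ← Set.inter_assoc]; exact h4, ?_⟩
  rw [h5]
  congr 1
  have : (R.1 - Q.1) * (P.2 - Q.2) - (P.1 - Q.1) * (R.2 - Q.2)
    = (Q.1 - P.1) * (R.2 - P.2) - (R.1 - P.1) * (Q.2 - P.2) := by ring
  rw [this]

/-- the line with given coefficients -/
def ln (a b c : ℝ) : Set (ℝ × ℝ) := {p | a * p.1 + b * p.2 = c}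

lemma mem_ln {a b c : ℝ} {p : ℝ × ℝ} : p ∈ ln a b c ↔ a * p.1 + b * p.2 = c := Iff.rfl

/-- determinant of the normals -/
def D (a₁ b₁ a₂ b₂ : ℝ) : ℝ := a₁ * b₂ - b₁ * a₂

/-- the full determinant -/
def Del (a₁ b₁ c₁ a₂ b₂ c₂ a₃ b₃ c₃ : ℝ) : ℝ :=
  a₁ * (b₂ * c₃ - b₃ * c₂) - b₁ * (a₂ * c₃ - a₃ * c₂) + c₁ * (a₂ * b₃ - a₃ * b₂)

lemma inter_ln {a₁ b₁ c₁ a₂ b₂ c₂ : ℝ} (h : D a₁ b₁ a₂ b₂ ≠ 0) :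
    ln a₁ b₁ c₁ ∩ ln a₂ b₂ c₂ =
      {((c₁ * b₂ - c₂ * b₁) / D a₁ b₁ a₂ b₂, (a₁ * c₂ - a₂ * c₁) / D a₁ b₁ a₂ b₂)} := by
  ext ⟨u, v⟩
  simp only [Set.mem_inter_iff, mem_ln, Set.mem_singleton_iff, Prod.mk.injEq]
  constructor
  · rintro ⟨h1, h2⟩
    rw [eq_div_iff h, eq_div_iff h]
    unfold D
    constructor
    · linear_combination b₂ * h1 - b₁ * h2
    · linear_combination (-a₂) * h1 + a₁ * h2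
  · rintro ⟨h1, h2⟩
    rw [eq_div_iff h] at h1 h2
    have hD : D a₁ b₁ a₂ b₂ = a₁ * b₂ - b₁ * a₂ := rfl
    constructor
    · apply mul_right_cancel₀ h
      linear_combination a₁ * h1 + b₁ * h2 - c₁ * hD
    · apply mul_right_cancel₀ h
      linear_combination a₂ * h1 + b₂ * h2 - c₂ * hD

lemma D_ne {a₁ b₁ c₁ a₂ b₂ c₂ : ℝ} {P : ℝ × ℝ} (hn : a₂ ≠ 0 ∨ b₂ ≠ 0)
    (h : ln a₁ b₁ c₁ ∩ ln a₂ b₂ c₂ = {P}) : D a₁ b₁ a₂ b₂ ≠ 0 := by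
  intro hD
  have hP : P ∈ ln a₁ b₁ c₁ ∩ ln a₂ b₂ c₂ := by rw [h]; exact Set.mem_singleton _
  obtain ⟨h1, h2⟩ := hP
  rw [mem_ln] at h1 h2
  have hQ : (P.1 - b₂, P.2 + a₂) ∈ ln a₁ b₁ c₁ ∩ ln a₂ b₂ c₂ := by
    unfold D at hD
    refine ⟨?_, ?_⟩
    · rw [mem_ln]
      show a₁ * (P.1 - b₂) + b₁ * (P.2 + a₂) = c₁
      linear_combination h1 - hD
    · rw [mem_ln]
      show a₂ * (P.1 - b₂) + b₂ * (P.2 + a₂) = c₂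
      linear_combination h2
  rw [h, Set.mem_singleton_iff] at hQ
  have e1 := congrArg Prod.fst hQ
  have e2 := congrArg Prod.snd hQ
  simp only at e1 e2
  rcases hn with g | g
  · exact g (by linarith)
  · exact g (by linarith)

lemma clear_denoms (u v w z r s : ℝ) {d12 d13 d23 : ℝ} (h12 : d12 ≠ 0) (h13 : d13 ≠ 0)
    (h23 : d23 ≠ 0) :
    ((u / d13 - v / d23) * (w / d12 - z / d23) - (r / d12 - v / d23) * (s / d13 - z / d23))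
      * (d12 * d13 * d23)
      = ((u * d23 - v * d13) * (w * d23 - z * d12)
          - (r * d23 - v * d12) * (s * d23 - z * d13)) / d23 := by
  field_simp

lemma area_formula {a₁ b₁ c₁ a₂ b₂ c₂ a₃ b₃ c₃ : ℝ} (h12 : D a₁ b₁ a₂ b₂ ≠ 0)
    (h13 : D a₁ b₁ a₃ b₃ ≠ 0) (h23 : D a₂ b₂ a₃ b₃ ≠ 0) :
    |((c₁ * b₃ - c₃ * b₁) / D a₁ b₁ a₃ b₃ - (c₂ * b₃ - c₃ * b₂) / D a₂ b₂ a₃ b₃)
      * ((a₁ * c₂ - a₂ * c₁) / D a₁ b₁ a₂ b₂ - (a₂ * c₃ - a₃ * c₂) / D a₂ b₂ a₃ b₃)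
      - ((c₁ * b₂ - c₂ * b₁) / D a₁ b₁ a₂ b₂ - (c₂ * b₃ - c₃ * b₂) / D a₂ b₂ a₃ b₃)
      * ((a₁ * c₃ - a₃ * c₁) / D a₁ b₁ a₃ b₃ - (a₂ * c₃ - a₃ * c₂) / D a₂ b₂ a₃ b₃)| / 2
      * (2 * |D a₁ b₁ a₂ b₂ * D a₁ b₁ a₃ b₃ * D a₂ b₂ a₃ b₃|)
      = Del a₁ b₁ c₁ a₂ b₂ c₂ a₃ b₃ c₃ ^ 2 := by
  rw [← abs_of_nonneg (sq_nonneg (Del a₁ b₁ c₁ a₂ b₂ c₂ a₃ b₃ c₃))]
  have e : ∀ X Y : ℝ, |X| / 2 * (2 * |Y|) = |X * Y| := by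
    intro X Y; rw [abs_mul]; ring
  rw [e, clear_denoms _ _ _ _ _ _ h12 h13 h23]
  have hpoly : ((c₁ * b₃ - c₃ * b₁) * D a₂ b₂ a₃ b₃ - (c₂ * b₃ - c₃ * b₂) * D a₁ b₁ a₃ b₃)
      * ((a₁ * c₂ - a₂ * c₁) * D a₂ b₂ a₃ b₃ - (a₂ * c₃ - a₃ * c₂) * D a₁ b₁ a₂ b₂)
      - ((c₁ * b₂ - c₂ * b₁) * D a₂ b₂ a₃ b₃ - (c₂ * b₃ - c₃ * b₂) * D a₁ b₁ a₂ b₂)
      * ((a₁ * c₃ - a₃ * c₁) * D a₂ b₂ a₃ b₃ - (a₂ * c₃ - a₃ * c₂) * D a₁ b₁ a₃ b₃)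
      = - Del a₁ b₁ c₁ a₂ b₂ c₂ a₃ b₃ c₃ ^ 2 * D a₂ b₂ a₃ b₃ := by
    unfold D Del
    ring
  rw [hpoly, mul_div_assoc, div_self h23, mul_one, abs_neg]

lemma area_of {a₁ b₁ c₁ a₂ b₂ c₂ a₃ b₃ c₃ A : ℝ} (h2 : a₂ ≠ 0 ∨ b₂ ≠ 0) (h3 : a₃ ≠ 0 ∨ b₃ ≠ 0)
    (h : TriangleArea (ln a₁ b₁ c₁) (ln a₂ b₂ c₂) (ln a₃ b₃ c₃) A) :
    D a₁ b₁ a₂ b₂ ≠ 0 ∧ D a₁ b₁ a₃ b₃ ≠ 0 ∧ D a₂ b₂ a₃ b₃ ≠ 0 ∧
      Del a₁ b₁ c₁ a₂ b₂ c₂ a₃ b₃ c₃ ≠ 0 ∧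
      A * (2 * |D a₁ b₁ a₂ b₂ * D a₁ b₁ a₃ b₃ * D a₂ b₂ a₃ b₃|)
        = Del a₁ b₁ c₁ a₂ b₂ c₂ a₃ b₃ c₃ ^ 2 := by
  obtain ⟨P, Q, R, hP, hQ, hR, hE, hA⟩ := h
  have d23 := D_ne h3 hP
  have d13 := D_ne h3 hQ
  have d12 := D_ne h2 hR
  have hP' := inter_ln (c₁ := c₂) (c₂ := c₃) d23
  have hQ' := inter_ln (c₁ := c₁) (c₂ := c₃) d13
  have hR' := inter_ln (c₁ := c₁) (c₂ := c₂) d12
  have eP := Set.singleton_eq_singleton_iff.mp (hP.symm.trans hP')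
  have eQ := Set.singleton_eq_singleton_iff.mp (hQ.symm.trans hQ')
  have eR := Set.singleton_eq_singleton_iff.mp (hR.symm.trans hR')
  refine ⟨d12, d13, d23, ?_, ?_⟩
  · intro h0
    have : P ∈ ln a₁ b₁ c₁ ∩ ln a₂ b₂ c₂ ∩ ln a₃ b₃ c₃ := by
      have hP2 : P ∈ ln a₂ b₂ c₂ ∩ ln a₃ b₃ c₃ := by rw [hP]; exact Set.mem_singleton _
      refine ⟨⟨?_, hP2.1⟩, hP2.2⟩
      have e2 := hP2.1
      have e3 := hP2.2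
      rw [mem_ln] at e2 e3 ⊢
      unfold Del at h0
      unfold D at d23
      have : (a₂ * b₃ - b₂ * a₃) * (a₁ * P.1 + b₁ * P.2 - c₁) = 0 := by
        rw [← e2, ← e3] at h0
        linear_combination -h0
      rcases mul_eq_zero.mp this with u | u
      · exact absurd u d23
      · linarith
    rw [hE] at this
    exact this
  · rw [hA, eP, eQ, eR]
    exact area_formula d12 d13 d23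

lemma exists_area {a₁ b₁ c₁ a₂ b₂ c₂ a₃ b₃ c₃ : ℝ} (d12 : D a₁ b₁ a₂ b₂ ≠ 0)
    (d13 : D a₁ b₁ a₃ b₃ ≠ 0) (d23 : D a₂ b₂ a₃ b₃ ≠ 0)
    (h : Del a₁ b₁ c₁ a₂ b₂ c₂ a₃ b₃ c₃ ≠ 0) :
    ∃ A, TriangleArea (ln a₁ b₁ c₁) (ln a₂ b₂ c₂) (ln a₃ b₃ c₃) A ∧
      A * (2 * |D a₁ b₁ a₂ b₂ * D a₁ b₁ a₃ b₃ * D a₂ b₂ a₃ b₃|)
        = Del a₁ b₁ c₁ a₂ b₂ c₂ a₃ b₃ c₃ ^ 2 := by
  refine ⟨_, ⟨_, _, _, inter_ln d23, inter_ln d13, inter_ln d12, ?_, rfl⟩,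
    area_formula d12 d13 d23⟩
  ext ⟨u, v⟩
  simp only [Set.mem_inter_iff, mem_ln, Set.mem_empty_iff_false, iff_false]
  rintro ⟨⟨e1, e2⟩, e3⟩
  apply h
  unfold Del
  rw [← e1, ← e2, ← e3]
  ring

end Pool.Agent.MP27bb56
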