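import Pool.Agent.Lib.MP_27bb56_h90.Link

/-!
The upper bound for `M`.
-/

namespace Pool.Agent.MP27bb56

lemma mem_le {n m : ℕ} (h : ∃ L : Finset (Set (ℝ × ℝ)), ∃ A : ℝ, L.card = n ∧
    (∀ l ∈ L, IsLine l) ∧ IsMaxArea L A ∧ (maxTriples L A).card = m) :
    m ≤ n * (n - 2) / 3 := by
  obtain ⟨L, A, h1, h2, h3, h4⟩ := h
  have := three_mul_le L h2 A h3
  rw [h1, h4] at this
  omega

/-- the upper bound for every `n` -/
theorem M_le (n : ℕ) : M n ≤ n * (n - 2) / 3 := by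
  unfold M
  rcases Set.eq_empty_or_nonempty {m | ∃ L : Finset (Set (ℝ × ℝ)), ∃ A : ℝ, L.card = n ∧
    (∀ l ∈ L, IsLine l) ∧ IsMaxArea L A ∧ (maxTriples L A).card = m} with h | h
  · rw [h]
    simp
  · exact csSup_le h fun m hm => mem_le hm

/-- an example gives the lower bound -/
theorem M_eq {n : ℕ} (h : ∃ L : Finset (Set (ℝ × ℝ)), ∃ A : ℝ, L.card = n ∧
    (∀ l ∈ L, IsLine l) ∧ IsMaxArea L A ∧ (maxTriples L A).card = n * (n - 2) / 3) :
    M n = n * (n - 2) / 3 := by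
  refine le_antisymm (M_le n) ?_
  unfold M
  exact le_csSup ⟨n * (n - 2) / 3, fun m hm => mem_le hm⟩ h

end Pool.Agent.MP27bb56
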